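import Pool.Agent.Q46.LN.Hyp
import Pool.Agent.Q46.LN.FG

/-!
MP_62d77c_ag: for a positive proportion of all hypersurfaces over a number field, in all dimensions
and codimensions and over all larger number fields, the cohomologically trivial cycles lift on every
regular proper flat model to classes orthogonal to the fibral cycles.

The forms are counted in boxes: the coordinates of the coefficients with respect to a fixed
`ℤ`-basis of the integers of `K` are at most `H` in absolute value. The Chow groups of the models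
are data with the properties `IsTheory`, `Diagonal`, `NodalModels`.
-/

set_option autoImplicit false

open MvPolynomial

open scoped NumberField

namespace Pool.Agent.Results.MP_62d77c_ag.OneNodeHypersurfaces

open Pool.Agent.Q187.LF (Theory IsTheory LiftsOrthogonally)
open Pool.Agent.Q46.LN (IsMild Diagonal fromMild)

universe u

/-- The form over `E` given by a form over `R`. -/
noncomputable def baseChange {R : Type} [CommRing R] (E : Type) [CommRing E] [Algebra R E] {m : ℕ}
    (F : MvPolynomial (Fin m) R) : MvPolynomial (Fin m) E :=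
  map (algebraMap R E) F

/-- The partial derivatives of `G` have no common zero (over an algebraic closure) but the origin:
every variable has a power in the ideal they generate. -/
def IsSmooth {E : Type} [Field E] {m : ℕ} (G : MvPolynomial (Fin m) E) : Prop :=
  ∀ i, X i ∈ (Ideal.span (Set.range fun j => pderiv j G)).radical

/-- `v` is a singular point of the projective hypersurface `F = 0`. -/
def IsSing {E : Type} [Field E] {m : ℕ} (F : MvPolynomial (Fin m) E) (v : Fin m → E) : Prop :=
  v ≠ 0 ∧ eval v F = 0 ∧ ∀ j, eval v (pderiv j F) = 0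

/-- The kernel of the Hessian matrix of `F` at `v` is spanned by `v`; equivalently, for a singular
point `v`, the Hessian determinant in an affine chart does not vanish. -/
def IsNondeg {E : Type} [Field E] {m : ℕ} (F : MvPolynomial (Fin m) E) (v : Fin m → E) : Prop :=
  ∀ w : Fin m → E, (∀ i, ∑ j, eval v (pderiv i (pderiv j F)) * w j = 0) →
    ∃ c : E, w = fun j => c * v j

/-- Modulo `𝔭` the hypersurface `F = 0` has at most one singular point, over all extensions `E` of
the residue field, and it is nondegenerate. -/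
def AtMostOneNode {O : Type} [CommRing O] (𝔭 : Ideal O) {m : ℕ} (F : MvPolynomial (Fin m) O) :
    Prop :=
  ∀ (E : Type) [Field E] (ψ : O →+* E), RingHom.ker ψ = 𝔭 → ∀ v, IsSing (map ψ F) v →
    IsNondeg (map ψ F) v ∧ ∀ w, IsSing (map ψ F) w → ∃ c : E, w = fun j => c * v j

/-- The forms of degree `d` in `m` variables over the integers of `K` such that the coordinates of
all coefficients with respect to the basis `ω` are at most `H` in absolute value. -/
def formsUpTo {K ι : Type} [Field K] (ω : Module.Basis ι ℤ (𝓞 K)) (m d H : ℕ) :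
    Set (MvPolynomial (Fin m) (𝓞 K)) :=
  {F | F.IsHomogeneous d ∧ ∀ α i, |ω.repr (coeff α F) i| ≤ (H : ℤ)}

/-- For all sufficiently large `H` the proportion of the forms with property `P` among the forms
with coordinates at most `H` is at least `c`. -/
def AtLeast {K ι : Type} [Field K] (ω : Module.Basis ι ℤ (𝓞 K)) (m d : ℕ) (c : ℝ)
    (P : MvPolynomial (Fin m) (𝓞 K) → Prop) : Prop :=
  ∃ H₀ : ℕ, ∀ H : ℕ, H₀ ≤ H →
    c * ((formsUpTo ω m d H).ncard : ℝ) ≤ ({F ∈ formsUpTo ω m d H | P F}.ncard : ℝ)

/-- The variety of a theory given by a form over the integers of a number field: the hypersurface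
`G = 0` over the number field. -/
def Hypersurfaces (T : Theory.{u}) : Type (max 1 u) :=
  ∀ (L : Type) [Field L] [NumberField L] (m : ℕ), MvPolynomial (Fin m) (𝓞 L) → T.Var

/-- Hypersurfaces of degree at least three with at most one node at every prime have mild models
(the resolutions of the closures in projective space). -/
def NodalModels (T : Theory.{u}) (V : Hypersurfaces T) : Prop :=
  ∀ (L : Type) [Field L] [NumberField L] (n d : ℕ), 1 ≤ n → 3 ≤ d →
    ∀ G : MvPolynomial (Fin (n + 2)) (𝓞 L), G.IsHomogeneous d → IsSmooth (baseChange L G) →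
      (∀ 𝔭 : Ideal (𝓞 L), 𝔭.IsPrime → 𝔭 ≠ ⊥ → AtMostOneNode 𝔭 G) →
      ∃ M : T.Mdl, T.gen M = V L (n + 2) G ∧ IsMild T M

/-- Every cohomologically trivial class on `X` of every codimension lifts, on every regular model of
`X`, to a class orthogonal to the fibral classes. -/
def AllClassesLift (T : Theory.{u}) (X : T.Var) : Prop :=
  ∀ N : T.Mdl, T.gen N = X → ∀ i : ℤ, ∀ c ∈ T.codimG (T.gen N) i, c ∈ T.hom0 (T.gen N) →
    LiftsOrthogonally T N i c

/-- The hypersurface `F = 0` is smooth, and over every number field `L` containing `K` all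
cohomologically trivial classes on it lift orthogonally to the fibral classes, on every model and in
every theory. -/
def LiftsEverywhere {K : Type} [Field K] {m : ℕ} (F : MvPolynomial (Fin m) (𝓞 K)) : Prop :=
  IsSmooth (baseChange K F) ∧
    ∀ (T : Theory.{u}), IsTheory T → Diagonal T → ∀ V : Hypersurfaces T, NodalModels T V →
      ∀ (L : Type) [Field L] [NumberField L] [Algebra K L],
        AllClassesLift T (V L m (baseChange (𝓞 L) F))

/-- All cohomologically trivial classes on varieties with a mild model lift on every model, and so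
does everything obtained from them by correspondences. -/
def MildModelsLift (T : Theory.{u}) : Prop :=
  (∀ M : T.Mdl, IsMild T M → AllClassesLift T (T.gen M)) ∧
  (∀ (N : T.Mdl) (i : ℤ), ∀ c ∈ fromMild T (T.gen N) i, LiftsOrthogonally T N i c)

/-- Near a form `F₀` with at most one node at the primes dividing `M!` all but a proportion `C/M` of
the forms have the property. -/
def MostNear {K ι : Type} [Field K] [NumberField K] (ω : Module.Basis ι ℤ (𝓞 K)) (n d : ℕ)
    (C : ℝ) : Prop :=
  ∀ M k : ℕ, 1 ≤ M → 1 ≤ k → ∀ F₀ : MvPolynomial (Fin (n + 2)) (𝓞 K), F₀.IsHomogeneous d →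
    (∀ 𝔭 : Ideal (𝓞 K), 𝔭.IsPrime → (M.factorial : 𝓞 K) ∈ 𝔭 → AtMostOneNode 𝔭 F₀) →
    AtLeast ω (n + 2) d (1 - C / M) fun G =>
      LiftsEverywhere.{u} (F₀ + MvPolynomial.C ((M.factorial : 𝓞 K) ^ k) * G)

/-- A positive proportion of all forms has the property. -/
def PositiveProportion {K ι : Type} [Field K] [NumberField K] (ω : Module.Basis ι ℤ (𝓞 K))
    (n d : ℕ) : Prop :=
  ∃ c : ℝ, 0 < c ∧ AtLeast ω (n + 2) d c LiftsEverywhere.{u}

/-- (1) Mild models, and what is obtained from them by correspondences; (2) most forms in residue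
classes; (3) a positive proportion of all forms. -/
theorem result :
    (∀ T : Theory.{u}, IsTheory T → Diagonal T → MildModelsLift T) ∧
    ∀ (K : Type) [Field K] [NumberField K] (ι : Type) [Fintype ι]
      (ω : Module.Basis ι ℤ (𝓞 K)) (n d : ℕ), 1 ≤ n → 3 ≤ d →
      (∃ C : ℝ, MostNear.{u} ω n d C) ∧ PositiveProportion.{u} ω n d := by
  have key : ∀ (K : Type) [Field K] [NumberField K] (n d : ℕ), 1 ≤ n → 3 ≤ d →
      ∀ F : MvPolynomial (Fin (n + 2)) (𝓞 K), F.IsHomogeneous d → Pool.Agent.Q46.LN.Lone F →
        LiftsEverywhere.{u} F := by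
    intro K _ _ n d hn hd F hF hL
    refine ⟨hL.1, fun T hT hD V hV L _ _ _ => ?_⟩
    have h1 := Pool.Agent.Q46.LN.lone_ext (L := L) F hL
    obtain ⟨M, hM, hmild⟩ := hV L n d hn hd (baseChange (𝓞 L) F) (hF.map _) h1.1 h1.2
    exact Pool.Agent.Q46.LN.allLift_of_mild hT hD hmild hM
  refine ⟨fun T hT hD => ⟨fun M hM => ?_, fun N i c hc => ?_⟩, ?_⟩
  · exact Pool.Agent.Q46.LN.allLift_of_mild hT hD hM rfl
  · exact Pool.Agent.Q46.LN.lo_of_fromMild hT hc
  · intro K _ _ ι _ ω n d hn hd
    have hmono : ∀ (H : ℕ) (P Q : MvPolynomial (Fin (n + 2)) (𝓞 K) → Prop),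
        (∀ F : MvPolynomial (Fin (n + 2)) (𝓞 K), F.IsHomogeneous d → P F → Q F) →
        {F ∈ formsUpTo ω (n + 2) d H | P F}.ncard ≤
          {F ∈ formsUpTo ω (n + 2) d H | Q F}.ncard := by
      intro H P Q hPQ
      refine Set.ncard_le_ncard (fun F hF => ⟨hF.1, hPQ F hF.1.1 hF.2⟩) ?_
      exact (Pool.Agent.Q46.LN.finite_formsB ω n d H).subset fun F hF => hF.1
    refine ⟨?_, ?_⟩
    · obtain ⟨C, -, hC⟩ := Pool.Agent.Q46.LN.near_lone ω Pool.Agent.Q46.LN.t_FG n d hn hd
      refine ⟨C, fun M k hM hk F₀ hF₀ h0 => ?_⟩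
      obtain ⟨H₀, hH₀⟩ := Filter.eventually_atTop.1 (hC M k hM hk F₀ hF₀ h0)
      refine ⟨H₀, fun H hH => (hH₀ H hH).trans ?_⟩
      rw [Nat.cast_le]
      refine hmono H _ _ fun G hG hL => ?_
      refine key K n d hn hd _ ?_ hL
      refine hF₀.add ?_
      have h2 := (isHomogeneous_C (Fin (n + 2)) ((M.factorial : 𝓞 K) ^ k)).mul hG
      rwa [zero_add] at h2
    · obtain ⟨c, hc, hev⟩ :=
        Pool.Agent.Q46.LN.positive_lone ω Pool.Agent.Q46.LN.t_FG n d hn hd
      obtain ⟨H₀, hH₀⟩ := Filter.eventually_atTop.1 hev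
      refine ⟨c, hc, H₀, fun H hH => (hH₀ H hH).trans ?_⟩
      rw [Nat.cast_le]
      exact hmono H _ _ fun F hF hL => key K n d hn hd F hF hL

end Pool.Agent.Results.MP_62d77c_ag.OneNodeHypersurfaces
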