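import Pool.Agent.Q187.LF.Main

/-!
Cohomologically trivial classes that lift orthogonally to the fibral cycles on one regular model
are stable under all correspondences: their images lift orthogonally on every regular model.
-/

namespace Pool.Agent.Results.MP_62d77c_ag.StableUnderAllCorrespondences

open Pool.Agent.Q187.LF

universe u

/-- Stability under correspondences between varieties with arbitrary regular models. -/
theorem result (T : Theory.{u}) (hT : IsTheory T) :
    ∀ (M N : T.Mdl) (e i : ℤ) (Γ : T.Cor (T.gen M) (T.gen N) e) (c : T.CH (T.gen M)),
      LiftsOrthogonally T M i c → LiftsOrthogonally T N (i + e) (T.act Γ c) :=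
  fun _ _ _ _ Γ _ h => lo_act hT Γ h

end Pool.Agent.Results.MP_62d77c_ag.StableUnderAllCorrespondences
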